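import Pool.Agent.W295.PR.Stm

/-! PR-TRB: the version for real Lie groups from the general version. -/

set_option autoImplicit false

open Topology

namespace Pool.Agent.W196.PR.TRB

open Pool.Agent.W295.PR

theorem main : S_TRB := by
  intro hgen E _ _ _ G _ _ _ _ _ Γ hΓ hc g hg d p hp k hk j hj U hU hne
  haveI : IsTopologicalGroup G :=
    topologicalGroup_of_lieGroup (modelWithCornersSelf ℝ E) ((⊤ : ℕ∞) : WithTop ℕ∞)
  haveI : T1Space G := ChartedSpace.t1Space E G
  haveI : LocallyConnectedSpace G := ChartedSpace.locallyConnectedSpace E G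
  haveI : T2Space G := inferInstance
  have hcl : IsClosed (Γ : Set G) := Subgroup.isClosed_of_discrete
  exact hgen G Γ hcl hc g hg d p hp k hk j hj U hU hne

end Pool.Agent.W196.PR.TRB
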